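import Mathlib
import Pool.Agent.P8H39.FDF.Stm2

set_option autoImplicit false

/-!
# Project FDF, package K4: among four vertices there is always a triple of the 3-graph
-/

namespace Pool.Agent.P8H55.FDF

open Finset
open P8H39.FDF

/-- the condition on a triple, as a function of the six Booleans -/
def f3 (xy yx xz zx yz zy : Bool) : Bool :=
  (!xy && !yx && !xz && !zx) || (!xy && !yx && !yz && !zy) || (!xz && !zx && !yz && !zy) ||
    (xy && xz) || (yx && yz) || (zx && zy)

/-- no directed four-cycle with arcs `p q r s` and the diagonals `u v`, `w x` absent -/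
def cyc (p q r s u v w x : Bool) : Bool := !(p && q && r && s) || u || v || w || x

def all12 (ab ba ac ca ad da bc cb bd db cd dc : Bool) : Bool :=
  !(!(ab && ba) && !(ac && ca) && !(ad && da) && !(bc && cb) && !(bd && db) && !(cd && dc) &&
    cyc ab bc cd da ac ca bd db && cyc ad dc cb ba ac ca bd db &&
    cyc ab bd dc ca ad da bc cb && cyc ac cd db ba ad da bc cb &&
    cyc ac cb bd da ab ba cd dc && cyc ad db bc ca ab ba cd dc) ||
  f3 ab ba ac ca bc cb || f3 ab ba ad da bd db || f3 ac ca ad da cd dc || f3 bc cb bd db cd dc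

theorem all12_true : ∀ ab ba ac ca ad da bc cb bd db cd dc : Bool,
    all12 ab ba ac ca ad da bc cb bd db cd dc = true := by
  decide +kernel

theorem self_false {V : Type} {r : V → V → Bool} (ho : Ori r) (x : V) : r x x = false := by
  by_contra h
  have h1 : r x x = true := by simpa using h
  exact h (ho x x h1)

theorem fdf_of_f3 {V : Type} [DecidableEq V] {r : V → V → Bool} (ho : Ori r) (x y z : V)
    (h : f3 (r x y) (r y x) (r x z) (r z x) (r y z) (r z y) = true) :
    fdf r ({x, y, z} : Finset V) := by
  have hx := self_false ho x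
  have hy := self_false ho y
  have hz := self_false ho z
  simp only [f3, Bool.or_eq_true, Bool.and_eq_true, Bool.not_eq_true'] at h
  unfold fdf
  rcases h with ((((h | h) | h) | h) | h) | h
  · exact ⟨x, by simp, Or.inl (by simp; tauto)⟩
  · exact ⟨y, by simp, Or.inl (by simp; tauto)⟩
  · exact ⟨z, by simp, Or.inl (by simp; tauto)⟩
  · exact ⟨x, by simp, Or.inr (by simp; tauto)⟩
  · exact ⟨y, by simp, Or.inr (by simp; tauto)⟩
  · exact ⟨z, by simp, Or.inr (by simp; tauto)⟩

theorem cyc_of {V : Type} {r : V → V → Bool} {a b c d : V}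
    (h : r a b = true → r b c = true → r c d = true → r d a = true →
      adj r a c = true ∨ adj r b d = true) :
    cyc (r a b) (r b c) (r c d) (r d a) (r a c) (r c a) (r b d) (r d b) = true := by
  unfold adj at h
  unfold cyc
  revert h
  cases r a b <;> cases r b c <;> cases r c d <;> cases r d a <;> simp <;> tauto

theorem ori_of {V : Type} {r : V → V → Bool} (ho : Ori r) (x y : V) :
    (!(r x y && r y x)) = true := by
  have := ho x y
  cases h : r x y
  · simp
  · simp [this h]

theorem k4 : S_K4 := by
  intro V _ r ho t ht hc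
  obtain ⟨a, b, c, d, hab, hac, had, hbc, hbd, hcd, rfl⟩ := card_eq_four.1 ht
  have ma : a ∈ ({a, b, c, d} : Finset V) := by simp
  have mb : b ∈ ({a, b, c, d} : Finset V) := by simp
  have mc : c ∈ ({a, b, c, d} : Finset V) := by simp
  have md : d ∈ ({a, b, c, d} : Finset V) := by simp
  have h := all12_true (r a b) (r b a) (r a c) (r c a) (r a d) (r d a) (r b c) (r c b) (r b d)
    (r d b) (r c d) (r d c)
  have c1 := cyc_of (hc a ma b mb c mc d md)
  have c2 := cyc_of (hc a ma d md c mc b mb)
  have c3 := cyc_of (hc a ma b mb d md c mc)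
  have c4 := cyc_of (hc a ma c mc d md b mb)
  have c5 := cyc_of (hc a ma c mc b mb d md)
  have c6 := cyc_of (hc a ma d md b mb c mc)
  have key : f3 (r a b) (r b a) (r a c) (r c a) (r b c) (r c b) = true ∨
      f3 (r a b) (r b a) (r a d) (r d a) (r b d) (r d b) = true ∨
      f3 (r a c) (r c a) (r a d) (r d a) (r c d) (r d c) = true ∨
      f3 (r b c) (r c b) (r b d) (r d b) (r c d) (r d c) = true := by
    have o1 := ori_of ho a b
    have o2 := ori_of ho a c
    have o3 := ori_of ho a d
    have o4 := ori_of ho b c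
    have o5 := ori_of ho b d
    have o6 := ori_of ho c d
    have sw : ∀ p q r s u v w x : Bool, cyc p q r s u v w x = cyc p q r s u v x w := by
      decide
    have c2' : cyc (r a d) (r d c) (r c b) (r b a) (r a c) (r c a) (r b d) (r d b) = true := by
      rw [sw]; exact c2
    have c4' : cyc (r a c) (r c d) (r d b) (r b a) (r a d) (r d a) (r b c) (r c b) = true := by
      rw [sw]; exact c4
    have c6' : cyc (r a d) (r d b) (r b c) (r c a) (r a b) (r b a) (r c d) (r d c) = true := by
      rw [sw]; exact c6
    unfold all12 at h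
    rw [o1, o2, o3, o4, o5, o6, c1, c2', c3, c4', c5, c6'] at h
    simpa [or_assoc] using h
  rcases key with h | h | h | h
  · exact ⟨{a, b, c}, by intro x; simp; tauto, card_eq_three.2 ⟨a, b, c, hab, hac, hbc, rfl⟩,
      fdf_of_f3 ho a b c h⟩
  · exact ⟨{a, b, d}, by intro x; simp; tauto, card_eq_three.2 ⟨a, b, d, hab, had, hbd, rfl⟩,
      fdf_of_f3 ho a b d h⟩
  · exact ⟨{a, c, d}, by intro x; simp; tauto, card_eq_three.2 ⟨a, c, d, hac, had, hcd, rfl⟩,
      fdf_of_f3 ho a c d h⟩
  · exact ⟨{b, c, d}, by intro x; simp; tauto, card_eq_three.2 ⟨b, c, d, hbc, hbd, hcd, rfl⟩,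
      fdf_of_f3 ho b c d h⟩

end Pool.Agent.P8H55.FDF
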